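import Mathlib

namespace Pool.Agent.H.MP_f96441_co

open Set Metric Filter Topology RealInnerProductSpace

variable {d : ℕ}

theorem minor (K : ConvexBody (EuclideanSpace ℝ (Fin d))) (z : EuclideanSpace ℝ (Fin d)) :
    ∃ u : EuclideanSpace ℝ (Fin d), (z ∉ K → ‖u‖ = 1) ∧
      ∀ x, infDist z K + ⟪u, x - z⟫ ≤ infDist x K := by
  obtain ⟨w, hw, e⟩ := exists_norm_eq_iInf_of_complete_convex K.nonempty
    K.isCompact.isComplete K.convex z
  have h := (norm_eq_iInf_iff_real_inner_le_zero K.convex hw).1 e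
  have a : infDist z K ≤ ‖z - w‖ := dist_eq_norm z w ▸ infDist_le_dist_of_mem hw
  by_cases hz : z = w
  · refine ⟨0, fun k => (k (hz ▸ hw)).elim, fun x => ?_⟩
    rw [hz, sub_self, norm_zero] at a
    rw [inner_zero_left, hz]
    linarith [infDist_nonneg (x := x) (s := (K : Set (EuclideanSpace ℝ (Fin d))))]
  have n := norm_pos_iff.2 (sub_ne_zero.2 hz)
  have n1 : ‖‖z - w‖⁻¹ • (z - w)‖ = 1 := norm_smul_inv_norm (sub_ne_zero.2 hz)
  refine ⟨‖z - w‖⁻¹ • (z - w), fun _ => n1, fun x => ?_⟩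
  obtain ⟨y, hy, e⟩ := K.isCompact.exists_infDist_eq_dist K.nonempty x
  have b := real_inner_le_norm (‖z - w‖⁻¹ • (z - w)) (x - y)
  rw [n1, one_mul, show x - y = (x - z) + (z - w) - (y - w) by abel, inner_sub_right,
    inner_add_right, real_inner_smul_left _ (z - w), real_inner_self_eq_norm_sq,
    real_inner_smul_left _ (y - w), show (x - z) + (z - w) - (y - w) = x - y by abel] at b
  rw [e, dist_eq_norm]
  have c := mul_nonpos_of_nonneg_of_nonpos (inv_pos.2 n).le (h y hy)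
  have : ‖z - w‖⁻¹ * ‖z - w‖ ^ 2 = ‖z - w‖ := by field_simp
  linarith

theorem generic (hd : 5 ≤ d) {J : Type} [Fintype J] (a : J → EuclideanSpace ℝ (Fin d))
    (h0 : J → ℝ) {γ : ℝ} (hγ : 0 < γ) : ∃ h : J → ℝ, ∃ θ > 0, (∀ j, |h j - h0 j| < γ) ∧
      ∀ j : Finset (Fin d) → J, Function.Injective j → ∀ (x : EuclideanSpace ℝ (Fin d))
        (v : Fin d → EuclideanSpace ℝ (Fin d)),
        ¬∀ s, |⟪a (j s), x + ∑ i ∈ s, v i⟫ - h (j s)| < θ := by
  classical
  let A : (Finset (Fin d) → J) → (EuclideanSpace ℝ (Fin d) × (Fin d → EuclideanSpace ℝ (Fin d)))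
      →ₗ[ℝ] (Finset (Fin d) → ℝ) := fun j =>
    { toFun := fun p s => ⟪a (j s), p.1 + ∑ i ∈ s, p.2 i⟫
      map_add' := fun p q => by
        ext s; simp [inner_add_right, Finset.sum_add_distrib]; ring
      map_smul' := fun c p => by
        ext s; simp [inner_add_right, ← Finset.smul_sum, inner_smul_right, mul_add] }
  let T : {j : Finset (Fin d) → J // Function.Injective j} → Submodule ℝ (J → ℝ) := fun j =>
    (LinearMap.range (A j)).comap (LinearMap.funLeft ℝ ℝ j.1)
  have ne : ∀ j, T j ≠ ⊤ := fun j e => by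
    have s : Function.Surjective (A j) := fun y => by
      obtain ⟨z, rfl⟩ := LinearMap.funLeft_surjective_of_injective ℝ ℝ j.1 j.2 y
      exact (e.ge Submodule.mem_top : z ∈ T j)
    have := LinearMap.finrank_le_finrank_of_surjective s
    simp only [Module.finrank_fintype_fun_eq_card, Fintype.card_finset, Fintype.card_fin,
      Module.finrank_prod, finrank_euclideanSpace, Module.finrank_pi_fintype, Finset.sum_const,
      Finset.card_univ, smul_eq_mul] at this
    have k : ∀ n, 5 ≤ n → n + n * n < 2 ^ n := fun n hn => by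
      induction n, hn using Nat.le_induction with
      | base => norm_num
      | succ n hn ih => rw [pow_succ]; nlinarith
    exact (k d hd).not_ge this
  have op : ∀ j, IsOpen (T j : Set (J → ℝ))ᶜ := fun j =>
    (T j).closed_of_finiteDimensional.isOpen_compl
  have de : Dense (⋂ j, (T j : Set (J → ℝ))ᶜ) := dense_iInter_of_isOpen op fun j =>
    interior_eq_empty_iff_dense_compl.1 (not_nonempty_iff_eq_empty.1 fun h =>
      ne j ((T j).eq_top_of_nonempty_interior' h))
  obtain ⟨h, h1, h2⟩ := de.inter_open_nonempty _ isOpen_ball (nonempty_ball.2 hγ :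
    (ball h0 γ).Nonempty)
  obtain ⟨θ, θ0, hθ⟩ := Metric.isOpen_iff.1 (isOpen_iInter_of_finite op) h h2
  refine ⟨h, θ, θ0, fun j => (dist_pi_lt_iff hγ).1 h1 j, fun j hj x v k => ?_⟩
  refine mem_iInter.1 (hθ (show Function.extend j (A j (x, v)) h ∈ _ from
    (dist_pi_lt_iff θ0).2 fun i => ?_)) ⟨j, hj⟩ ⟨(x, v), funext fun s => ?_⟩
  · by_cases e : ∃ s, j s = i
    · obtain ⟨s, rfl⟩ := e
      rw [hj.extend_apply]
      exact k s
    · rw [Function.extend_apply' _ _ _ e, dist_self]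
      exact θ0
  · exact (hj.extend_apply _ _ s).symm

theorem key (hd : 5 ≤ d) (K0 : ConvexBody (EuclideanSpace ℝ (Fin d))) {ε r : ℝ} (ε0 : 0 < ε)
    (ε1 : ε ≤ 1) (r0 : 0 < r) : ∃ K1, dist K1 K0 < ε ∧ ∃ η > 0, ∀ K, dist K K1 < η →
      ∀ (x : EuclideanSpace ℝ (Fin d)) (v : Fin d → EuclideanSpace ℝ (Fin d)),
        (∀ s t : Finset (Fin d), s ≠ t → r ≤ dist (x + ∑ i ∈ s, v i) (x + ∑ i ∈ t, v i)) →
        ¬∀ s : Finset (Fin d),
          x + ∑ i ∈ s, v i ∈ frontier (K : Set (EuclideanSpace ℝ (Fin d))) := by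
  obtain ⟨R, R0, hR⟩ := K0.isBounded.subset_closedBall_lt 0 0
  choose u _ hu using minor K0
  obtain ⟨e, e0, he⟩ : ∃ e > 0, e * R ^ 2 = ε / 4 := ⟨ε / 4 / R ^ 2, by positivity, by field_simp⟩
  obtain ⟨γ, γ0, γ1, γ2⟩ : ∃ γ > 0, γ ≤ ε / 16 ∧ γ ≤ e * r ^ 2 / 64 :=
    ⟨min _ _, by positivity, min_le_left _ _, min_le_right _ _⟩
  let f : EuclideanSpace ℝ (Fin d) → ℝ := fun x => infDist x K0 + e * ‖x‖ ^ 2 - ε / 4
  let a : EuclideanSpace ℝ (Fin d) → EuclideanSpace ℝ (Fin d) := fun z => u z + (2 * e) • z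
  let b : EuclideanSpace ℝ (Fin d) → ℝ := fun z => f z - ⟪a z, z⟫
  have mi : ∀ z x, ⟪a z, x⟫ + b z + e * ‖x - z‖ ^ 2 ≤ f x := fun z x => by
    have := hu z x
    simp only [f, a, b, inner_add_left, inner_sub_right, real_inner_smul_left,
      norm_sub_sq_real, real_inner_self_eq_norm_sq, real_inner_comm z x] at *
    linarith
  have cf : Continuous f := by
    have := continuous_infDist_pt (K0 : Set (EuclideanSpace ℝ (Fin d)))
    fun_prop
  obtain ⟨t, ht⟩ := (isCompact_closedBall (0 : EuclideanSpace ℝ (Fin d))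
    (R + 2)).elim_finite_subcover (fun z => {x | f x - γ < ⟪a z, x⟫ + b z})
    (fun z => isOpen_lt (by fun_prop) (by fun_prop))
    fun z _ => mem_iUnion.2 ⟨z, by simp [b, γ0]⟩
  obtain ⟨h, θ, θ0, hh, hg⟩ := generic hd (fun j : t => a j) (fun j => γ / 2 - b j) (half_pos γ0)
  have sub : (K0 : Set _) ⊆ closedBall 0 (R + 2) ∩ ⋂ j : t, {x | ⟪a j, x⟫ ≤ h j} := fun x hx => by
    have n : ‖x‖ ≤ R := by simpa using hR hx
    refine ⟨by simp; linarith, mem_iInter.2 fun j => ?_⟩
    have k := mi j x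
    have := mul_le_mul_of_nonneg_left (pow_le_pow_left₀ (norm_nonneg _) n 2) e0.le
    simp only [f, infDist_zero_of_mem hx] at k
    have := mul_nonneg e0.le (sq_nonneg ‖x - j‖)
    rw [mem_ofPred_eq]
    linarith [(abs_lt.1 (hh j)).1]
  let K1 : ConvexBody (EuclideanSpace ℝ (Fin d)) :=
    ⟨closedBall 0 (R + 2) ∩ ⋂ j : t, {x | ⟪a j, x⟫ ≤ h j},
      (convex_closedBall _ _).inter (convex_iInter fun j =>
        convex_halfSpace_le (innerₛₗ ℝ (a j)).isLinear _),
      (isCompact_closedBall _ _).inter_right (isClosed_iInter fun j =>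
        isClosed_le (by fun_prop) continuous_const), K0.nonempty.mono sub⟩
  have f1 : ∀ p ∈ K1, f p < 2 * γ := fun p hp => by
    obtain ⟨z, hz, k⟩ := mem_iUnion₂.1 (ht hp.1)
    have := mem_iInter.1 hp.2 ⟨z, hz⟩
    have := (abs_lt.1 (hh ⟨z, hz⟩)).2
    simp only [mem_ofPred_eq] at *
    linarith
  have f2 : ∀ p ∈ K1, infDist p K0 < ε / 2 := fun p hp => by
    have := f1 p hp
    have := mul_nonneg e0.le (sq_nonneg ‖p‖)
    simp only [f] at *
    linarith
  obtain ⟨L, hL⟩ := Finite.bddAbove_range fun j : t => ‖a j‖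
  obtain ⟨η, ⟨⟨η0, η1⟩, η2⟩, η3, η4⟩ := ((((Eventually.and (self_mem_nhdsWithin :
      ∀ᶠ η in 𝓝[>] (0 : ℝ), 0 < η) (Ioo_mem_nhdsGT (show (0 : ℝ) < 1 / 4 by norm_num))).and
      (Ioo_mem_nhdsGT (show (0 : ℝ) < r / 4 by positivity))).and (((((by fun_prop : Continuous
      fun η : ℝ => 3 * (L * η)).tendsto 0).eventually_lt tendsto_const_nhds (by simpa using γ0)).and
      (((by fun_prop : Continuous fun η : ℝ => 2 * (L * η)).tendsto 0).eventually_lt
        tendsto_const_nhds (by simpa using θ0))).filter_mono nhdsWithin_le_nhds))).exists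
  refine ⟨K1, (hausdorffDist_le_of_infDist (half_pos ε0).le (fun p hp => (f2 p hp).le)
    fun p hp => (infDist_zero_of_mem (sub hp)).trans_le (half_pos ε0).le).trans_lt (half_lt_self ε0),
    η, η0, fun K hK x v sep fr => ?_⟩
  have main : ∀ p ∈ frontier (K : Set (EuclideanSpace ℝ (Fin d))),
      ∃ j : t, |⟪a j, p⟫ - h j| < θ ∧ dist p j < r / 2 := fun p hp => by
    obtain ⟨p', hp', d1⟩ := exists_dist_lt_of_hausdorffDist_lt (K.isClosed.frontier_subset hp) hK
      ConvexBody.hausdorffEDist_ne_top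
    obtain ⟨q0, hq, d2⟩ := Metric.mem_closure_iff.1 (frontier_eq_closure_inter_closure.le hp).2 η η0
    obtain ⟨w, w1, hw⟩ := minor K q0
    have w1 := w1 hq
    have d3 : dist p (q0 + η • w) < 2 * η := by
      have := dist_triangle p q0 (q0 + η • w)
      rw [dist_self_add_right, norm_smul, w1, Real.norm_of_nonneg η0.le] at this
      linarith
    have nq : q0 + η • w ∉ K1 := fun k => by
      have a1 := hw (q0 + η • w)
      rw [add_sub_cancel_left, real_inner_smul_right, real_inner_self_eq_norm_sq, w1] at a1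
      have a2 := infDist_le_hausdorffDist_of_mem k (ConvexBody.hausdorffEDist_ne_top (L := K))
      rw [ConvexBody.hausdorffDist_coe, dist_comm] at a2
      linarith [infDist_nonneg (x := q0) (s := (K : Set (EuclideanSpace ℝ (Fin d))))]
    generalize q0 + η • w = q at *
    obtain ⟨y, hy, d4⟩ := (infDist_lt_iff K0.nonempty).1 (f2 p' hp')
    obtain ⟨j, hj⟩ : ∃ j : t, h j < ⟪a j, q⟫ := by
      by_contra k
      push Not at k
      refine nq ⟨?_, mem_iInter.2 k⟩
      have := dist_triangle4 q p p' y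
      have := dist_triangle q y 0
      rw [mem_closedBall]
      linarith [mem_closedBall.1 (hR hy), dist_comm p q, η1.2]
    have l : ‖a j‖ ≤ L := hL ⟨j, rfl⟩
    have lip : ∀ x y : EuclideanSpace ℝ (Fin d), ∀ c, dist x y ≤ c * η →
        ⟪a j, x⟫ ≤ ⟪a j, y⟫ + c * (L * η) := fun x y c k => by
      have := real_inner_le_norm (a j) (x - y)
      rw [inner_sub_right, ← dist_eq_norm] at this
      nlinarith [mul_le_mul l k dist_nonneg ((norm_nonneg _).trans l)]
    have b1 := lip q p 2 (dist_comm p q ▸ d3.le)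
    have b2 := lip p p' 1 (by linarith)
    have b3 : ⟪a j, p'⟫ ≤ h j := mem_iInter.1 hp'.2 j
    have L0 := mul_nonneg ((norm_nonneg _).trans l) η0.le
    have b4 := lip q p' 3 (by linarith [dist_triangle q p p', dist_comm p q])
    refine ⟨j, abs_lt.2 ⟨by linarith, by linarith⟩, ?_⟩
    have b5 : e * ‖p' - j‖ ^ 2 < e * (r / 4) ^ 2 := by
      linarith [mi j p', f1 p' hp', (abs_lt.1 (hh j)).1]
    have b6 := lt_of_pow_lt_pow_left₀ 2 (by positivity) (lt_of_mul_lt_mul_left b5 e0.le)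
    rw [← dist_eq_norm] at b6
    linarith [dist_triangle p p' j, η2.2]
  choose j h1 h2 using fun s => main _ (fr s)
  refine hg j (fun s s' e => by_contra fun k => ?_) x v h1
  have := dist_triangle_right (x + ∑ i ∈ s, v i) (x + ∑ i ∈ s', v i) (j s)
  linarith [sep s s' k, h2 s, e ▸ h2 s']

theorem main (hd : 5 ≤ d) : {K : ConvexBody (EuclideanSpace ℝ (Fin d)) |
    ¬∃ (x : EuclideanSpace ℝ (Fin d)) (v : Fin d → EuclideanSpace ℝ (Fin d)),
      LinearIndependent ℝ v ∧ ∀ s : Finset (Fin d),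
        x + ∑ i ∈ s, v i ∈ frontier (K : Set (EuclideanSpace ℝ (Fin d)))} ∈ residual _ := by
  classical
  let A : ℕ → Set (ConvexBody (EuclideanSpace ℝ (Fin d))) := fun m => {K |
    ∀ (x : EuclideanSpace ℝ (Fin d)) (v : Fin d → EuclideanSpace ℝ (Fin d)),
      (∀ s t : Finset (Fin d), s ≠ t → 1 / ((m : ℝ) + 1) ≤
        dist (x + ∑ i ∈ s, v i) (x + ∑ i ∈ t, v i)) → ¬∀ s : Finset (Fin d),
          x + ∑ i ∈ s, v i ∈ frontier (K : Set (EuclideanSpace ℝ (Fin d)))}
  refine mem_of_superset (countable_iInter_mem.2 fun m => residual_of_dense_open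
    (isOpen_interior (s := A m)) (Metric.dense_iff.2 fun K0 ε ε0 => ?_)) ?_
  · obtain ⟨K1, h1, η, η0, h2⟩ := key hd K0 (lt_min ε0 one_pos) (min_le_right _ _)
      (Nat.one_div_pos_of_nat (n := m))
    exact ⟨K1, h1.trans_le (min_le_left _ _), mem_interior_iff_mem_nhds.2
      (mem_of_superset (ball_mem_nhds K1 η0) h2)⟩
  · rintro K hK ⟨x, v, li, h⟩
    have : ∀ᶠ m : ℕ in atTop, ∀ s t : Finset (Fin d), s ≠ t → 1 / ((m : ℝ) + 1) ≤
        dist (x + ∑ i ∈ s, v i) (x + ∑ i ∈ t, v i) := by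
      simp only [eventually_all]
      intro s t st
      refine tendsto_one_div_add_atTop_nhds_zero_nat.eventually_le_const (dist_pos.2 fun e => st ?_)
      have := Fintype.linearIndependent_iff.1 li
        (fun i => (if i ∈ s then 1 else 0) - if i ∈ t then 1 else 0) (by
          simp [sub_smul, ite_smul, add_left_cancel e])
      ext i
      have := this i
      by_cases a : i ∈ s <;> by_cases b : i ∈ t <;> simp_all
    obtain ⟨m, hm⟩ := this.exists
    exact interior_subset (mem_iInter.1 hK m) x v hm h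

end Pool.Agent.H.MP_f96441_co
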